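import Mathlib
import Pool.Agent.TH888.G.FTB

/-!
Generalised Fermat equations with `S`-unit coefficients: two bases given by polynomials, a free third
base, all exponents and all coefficients.

For every finite set `S` of primes there is `κ` and for every `δ > 0` there is `c > 0` such that for
coprime nonconstant integer polynomials `f`, `g` and `ε > 0` there is a periodic set of integers of
density at least `1 - ε` in which only `N ^ (1/2 + δ)` integers `n ≤ N` have the property that `f(n)`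
and `g(n)` are two bases of an `S`-solution whose third base is at most `exp (N ^ c)`, or (with no bound
for the third base) whose coefficients are at most `N ^ K` and whose third exponent has all its prime
factors larger than `(log N) ^ κ`.
-/

set_option autoImplicit false

namespace Pool.Agent.Results.MP_be1fae_nt.FreeThirdBase

open Polynomial

/-- `S`-solutions of `a x ^ p + b y ^ q = c z ^ r`, with `1/p + 1/q + 1/r ≤ 1` -/
def SSolution (S : Finset ℕ) (a b c x y z : ℤ) (p q r : ℕ) : Prop :=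
  0 < p ∧ 0 < q ∧ 0 < r ∧ q * r + r * p + p * q ≤ p * q * r ∧
    a ≠ 0 ∧ b ≠ 0 ∧ c ≠ 0 ∧ (∀ ℓ : ℕ, ℓ.Prime → (ℓ : ℤ) ∣ a * b * c → ℓ ∈ S) ∧
    x ≠ 0 ∧ y ≠ 0 ∧ z ≠ 0 ∧ Int.gcd ((Int.gcd (a * x) (b * y) : ℕ) : ℤ) (c * z) = 1 ∧
    a * x ^ p + b * y ^ q = c * z ^ r

/-- `f n`, `g n` are two of the bases of an `S`-solution whose third base is at most `W` in absolute
value, or whose coefficients are at most `V` in absolute value and whose third exponent is at least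
`2` and has all its prime factors larger than `R`. -/
def Exceptional (S : Finset ℕ) (f g : ℤ[X]) (V R W : ℝ) : Set ℕ :=
  {n | ∃ (a b c z : ℤ) (p q r : ℕ),
    SSolution S a b c (f.eval (n : ℤ)) (g.eval (n : ℤ)) z p q r ∧
      (|(z : ℝ)| ≤ W ∨ (|(a : ℝ)| ≤ V ∧ |(b : ℝ)| ≤ V ∧ |(c : ℝ)| ≤ V ∧ 2 ≤ r ∧
        ∀ ℓ : ℕ, ℓ.Prime → ℓ ∣ r → R < ℓ))}

/-- For every finite set `S` of primes there are `κ` and a function `c` with `c δ > 0` for `δ > 0`
such that for all integer polynomials `f`, `g`, nonconstant and coprime over `ℚ`, and every `ε > 0`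
there are a modulus `M` and a set `G` of at least `(1 - ε) M` residue classes modulo `M` such that for
every `δ > 0`, every `K` and large `N` at most `N ^ (1/2 + δ)` integers `n ≤ N` in these classes are
exceptional for `V = N ^ K`, `R = (log N) ^ κ` and `W = exp (N ^ (c δ))`. -/
theorem result (S : Finset ℕ) : ∃ (κ : ℕ) (c : ℝ → ℝ), (∀ δ : ℝ, 0 < δ → 0 < c δ) ∧ ∀ f g : ℤ[X],
    0 < f.natDegree → 0 < g.natDegree →
    IsCoprime (f.map (Int.castRingHom ℚ)) (g.map (Int.castRingHom ℚ)) →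
    ∀ ε : ℝ, 0 < ε → ∃ (M : ℕ) (G : Finset ℕ), 0 < M ∧ G ⊆ Finset.range M ∧
      (1 - ε) * M ≤ (G.card : ℝ) ∧ ∀ (δ : ℝ) (K : ℕ), 0 < δ → ∃ N₀ : ℕ, ∀ N : ℕ, N₀ ≤ N →
        (({n : ℕ | 1 ≤ n ∧ n ≤ N ∧ n % M ∈ G ∧
          n ∈ Exceptional S f g ((N : ℝ) ^ K) (Real.log N ^ κ) (Real.exp ((N : ℝ) ^ c δ))}.ncard : ℝ)) ≤
            (N : ℝ) ^ (1 / 2 + δ) := by
  obtain ⟨κ, c, hc, h⟩ := Pool.Agent.TH888.G.ftb S
  refine ⟨κ, c, hc, fun f g hf hg hfg ε hε => ?_⟩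
  obtain ⟨M, G, hM, hG, hcard, h2⟩ := h f g hf hg hfg ε hε
  refine ⟨M, G, hM, hG, hcard, fun δ K hδ => ?_⟩
  obtain ⟨N₀, h3⟩ := h2 δ K hδ
  refine ⟨N₀, fun N hN => le_trans ?_ (h3 N hN)⟩
  have hsu : ∀ a b c : ℤ, a ≠ 0 → b ≠ 0 → c ≠ 0 →
      (∀ ℓ : ℕ, ℓ.Prime → (ℓ : ℤ) ∣ a * b * c → ℓ ∈ S) →
      Pool.Agent.TH888.W2.Su S a.natAbs ∧ Pool.Agent.TH888.W2.Su S b.natAbs ∧
        Pool.Agent.TH888.W2.Su S c.natAbs := by
    intro a b c ha hb hc hl
    refine ⟨⟨Int.natAbs_ne_zero.mpr ha, fun ℓ hℓ hd => hl ℓ hℓ ?_⟩,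
      ⟨Int.natAbs_ne_zero.mpr hb, fun ℓ hℓ hd => hl ℓ hℓ ?_⟩,
      ⟨Int.natAbs_ne_zero.mpr hc, fun ℓ hℓ hd => hl ℓ hℓ ?_⟩⟩
    · exact ((Int.natCast_dvd.mpr hd).mul_right b).mul_right c
    · exact ((Int.natCast_dvd.mpr hd).mul_left a).mul_right c
    · exact (Int.natCast_dvd.mpr hd).mul_left (a * b)
  have hfin : {n : ℕ | 1 ≤ n ∧ n ≤ N ∧ n % M ∈ G ∧
      n ∈ Pool.Agent.TH888.G.ExcF S f g ((N : ℝ) ^ K) (Real.log N ^ κ)
        (Real.exp ((N : ℝ) ^ c δ))}.Finite :=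
    (Finset.finite_toSet (Finset.range (N + 1))).subset fun n hn => by
      rw [Finset.mem_coe, Finset.mem_range]; exact Nat.lt_succ_of_le hn.2.1
  refine Nat.cast_le.mpr (Set.ncard_le_ncard ?_ hfin)
  rintro n ⟨h1, h2, h3, a, b, c', z, p, q, r,
    ⟨hp, hq, hr, hle, ha, hb, hc', hl, hx, hy, hz, hgcd, heq⟩, hw⟩
  obtain ⟨s1, s2, s3⟩ := hsu a b c' ha hb hc' hl
  exact ⟨h1, h2, h3, a, b, c', z, p, q, r, hp, hq, hr, hle, s1, s2, s3, hx, hy, hz, hgcd, heq, hw⟩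

end Pool.Agent.Results.MP_be1fae_nt.FreeThirdBase
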