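import Pool.Agent.TH867.SB.Ref

/-!
# `S`-solutions of `a x ^ p + b y ^ q = c z ^ r` of all heights, counted by the radical

For every finite set `S` of primes the triples of terms `(a x ^ p, b y ^ q, c z ^ r)` of all
`S`-solutions with `rad (x y z) ≤ X`, WITHOUT any bound on the exponents, the coefficients and the
size of the solution, are finite in number, and at most `C X ^ (2/3 + ε)`; those with a base of
radical at most `A` (for instance `x = 1`: equations `a + b y ^ q = c z ^ r`) are at most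
`C X ^ ε √(A X)`.

Library: helper867 (abc triples of all heights counted by their radical).
-/

set_option autoImplicit false

namespace Pool.Agent.Results.MP_be1fae_nt.RadicalAllHeights

open Finset

/-- the product of the primes dividing `n` -/
def radical (n : ℕ) : ℕ := ∏ q ∈ n.primeFactors, q

/-- `S`-solutions: `a x ^ p + b y ^ q = c z ^ r` with `1/p + 1/q + 1/r < 1`, the terms coprime, the
coefficients nonzero with all prime divisors in `S`, the bases nonzero -/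
def IsSol (S : Finset ℕ) (a b c x y z : ℤ) (p q r : ℕ) : Prop :=
  0 < p ∧ 0 < q ∧ 0 < r ∧ (1 : ℚ) / p + 1 / q + 1 / r < 1 ∧
  (a ≠ 0 ∧ b ≠ 0 ∧ c ≠ 0) ∧ (x ≠ 0 ∧ y ≠ 0 ∧ z ≠ 0) ∧
  (∀ l : ℕ, l.Prime → (l : ℤ) ∣ a * b * c → l ∈ S) ∧
  Int.gcd ((Int.gcd (a * x) (b * y) : ℕ) : ℤ) (c * z) = 1 ∧
  a * x ^ p + b * y ^ q = c * z ^ r

/-- the triples of terms of the `S`-solutions with `rad (x y z) ≤ X` -/
def terms (S : Finset ℕ) (X : ℝ) : Set (ℤ × ℤ × ℤ) :=
  {t | ∃ a b c x y z : ℤ, ∃ p q r : ℕ, IsSol S a b c x y z p q r ∧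
    (radical (x * y * z).natAbs : ℝ) ≤ X ∧ t = (a * x ^ p, b * y ^ q, c * z ^ r)}

/-- the same with the radical of one of the bases at most `A` -/
def termsA (S : Finset ℕ) (X A : ℝ) : Set (ℤ × ℤ × ℤ) :=
  {t | ∃ a b c x y z : ℤ, ∃ p q r : ℕ, IsSol S a b c x y z p q r ∧
    (radical (x * y * z).natAbs : ℝ) ≤ X ∧
    ((radical x.natAbs : ℝ) ≤ A ∨ (radical y.natAbs : ℝ) ≤ A ∨ (radical z.natAbs : ℝ) ≤ A) ∧
    t = (a * x ^ p, b * y ^ q, c * z ^ r)}

open Pool.Agent.TH867.SR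

/-- `log rad n` -/
noncomputable def rho (n : ℕ) : ℝ := ∑ q ∈ n.primeFactors, Real.log q

lemma rho_nonneg (n : ℕ) : 0 ≤ rho n :=
  sum_nonneg fun _ hq => Real.log_nonneg (by
    exact_mod_cast (Nat.prime_of_mem_primeFactors hq).one_le)

lemma rho_eq (n : ℕ) : rho n = Real.log (radical n) := by
  unfold rho radical
  rw [Nat.cast_prod, Real.log_prod]
  intro q hq
  have := (Nat.prime_of_mem_primeFactors hq).pos
  exact_mod_cast this.ne'

lemma radical_pos (n : ℕ) : 0 < radical n :=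
  prod_pos fun _ hq => (Nat.prime_of_mem_primeFactors hq).pos

lemma rr_rho (t : Fin 3 → ℕ) (j : Fin 3) : rr t j = rho (t j) := rfl

lemma rho_mul {m n : ℕ} (h : Nat.Coprime m n) (hm : m ≠ 0) (hn : n ≠ 0) :
    rho (m * n) = rho m + rho n := by
  unfold rho
  rw [Nat.primeFactors_mul hm hn, sum_union h.disjoint_primeFactors]

/-- the constant -/
noncomputable def cS (S : Finset ℕ) : ℝ := ∑ q ∈ S.filter Nat.Prime, Real.log q

lemma cS_nonneg (S : Finset ℕ) : 0 ≤ cS S :=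
  sum_nonneg fun _ hq => Real.log_nonneg (by exact_mod_cast (mem_filter.1 hq).2.one_le)

lemma rho_le {S : Finset ℕ} {m n : ℕ}
    (h : ∀ l : ℕ, l.Prime → l ∣ n → l ∈ S ∨ l ∣ m) (hm : m ≠ 0) :
    rho n ≤ cS S + rho m := by
  classical
  unfold rho cS
  have h1 : n.primeFactors ⊆ S.filter Nat.Prime ∪ m.primeFactors := by
    intro l hl
    rw [Nat.mem_primeFactors] at hl
    rw [mem_union, mem_filter, Nat.mem_primeFactors]
    rcases h l hl.1 hl.2.1 with h2 | h2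
    · exact Or.inl ⟨h2, hl.1⟩
    · exact Or.inr ⟨hl.1, h2, hm⟩
  refine (sum_le_sum_of_subset_of_nonneg h1 fun l hl _ => ?_).trans ?_
  · rw [mem_union, mem_filter, Nat.mem_primeFactors] at hl
    have : l.Prime := by
      rcases hl with h | h
      · exact h.2
      · exact h.1
    exact Real.log_nonneg (by exact_mod_cast this.one_le)
  · have h2 := sum_union_inter (s₁ := S.filter Nat.Prime) (s₂ := m.primeFactors)
      (f := fun l : ℕ => Real.log l)
    have h3 : 0 ≤ ∑ l ∈ S.filter Nat.Prime ∩ m.primeFactors, Real.log l :=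
      sum_nonneg fun l hl => Real.log_nonneg (by
        exact_mod_cast (mem_filter.1 (mem_inter.1 hl).1).2.one_le)
    linarith

/-- the abc triples which occur -/
def FF (Y B : ℝ) : Set (Fin 3 → ℕ) :=
  {u | Tr u ∧ rr u 0 + rr u 1 + rr u 2 ≤ Real.log Y ∧ ∃ i, rr u i ≤ Real.log B}

lemma FF_fin (ε : ℝ) (hε : 0 < ε) : ∃ D : ℝ, 0 < D ∧ ∀ Y B : ℝ, 1 ≤ Y → 1 ≤ B →
    (FF Y B).Finite ∧ ((FF Y B).ncard : ℝ) ≤ D * Y ^ ε * (B * Y) ^ (1 / 2 : ℝ) := by
  obtain ⟨D, hD, h⟩ := Pool.Agent.TH867.SB.ref_all ε hε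
  refine ⟨D, hD, fun Y B hY hB => ?_⟩
  have hfin : (FF Y B).Finite := by
    by_contra hinf
    obtain ⟨n, hn⟩ := exists_nat_gt (D * Y ^ ε * (B * Y) ^ (1 / 2 : ℝ))
    obtain ⟨F, hF, hFn⟩ := Set.Infinite.exists_subset_card_eq hinf n
    have h1 := h Y B hY hB F (fun t ht => hF (mem_coe.2 ht))
    rw [hFn] at h1
    linarith
  refine ⟨hfin, ?_⟩
  have h1 := h Y B hY hB hfin.toFinset (fun t ht => hfin.mem_toFinset.1 ht)
  rwa [← Set.ncard_eq_toFinset_card _ hfin] at h1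

/-- the triples of integers with given absolute values -/
def Psi (w : (Fin 3 → ℕ) × (Fin 3 → Fin 3) × (Fin 3 → Bool)) : ℤ × ℤ × ℤ :=
  ((if w.2.2 0 then 1 else -1) * (w.1 (w.2.1 0) : ℤ), (if w.2.2 1 then 1 else -1) * (w.1 (w.2.1 1) : ℤ),
    (if w.2.2 2 then 1 else -1) * (w.1 (w.2.1 2) : ℤ))

lemma mem_Psi {F : Set (Fin 3 → ℕ)} {u : Fin 3 → ℕ} (hu : u ∈ F) (s : Fin 3 → Fin 3) {T : Fin 3 → ℤ}
    (h : ∀ i, (T i).natAbs = u (s i)) :
    (T 0, T 1, T 2) ∈ Psi '' (F ×ˢ (Set.univ : Set ((Fin 3 → Fin 3) × (Fin 3 → Bool)))) := by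
  refine ⟨(u, s, fun i => decide (0 ≤ T i)), ⟨hu, Set.mem_univ _⟩, ?_⟩
  have key : ∀ i, (if decide (0 ≤ T i) = true then (1 : ℤ) else -1) * (u (s i) : ℤ) = T i := by
    intro i
    rw [← h i]
    by_cases h0 : 0 ≤ T i
    · rw [if_pos (by simpa using h0), one_mul]
      exact Int.natAbs_of_nonneg h0
    · rw [if_neg (by simpa using h0)]
      have := Int.ofNat_natAbs_of_nonpos (by omega : T i ≤ 0)
      omega
  unfold Psi
  simp only [key]

/-- a coprime triple with sum zero gives an abc triple -/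
lemma to_abc {T : Fin 3 → ℤ} (h0 : ∀ i, T i ≠ 0) (hsum : T 0 + T 1 = T 2)
    (hc : Int.gcd (T 0) (T 1) = 1) {Y B : ℝ}
    (h1 : rho (T 0).natAbs + rho (T 1).natAbs + rho (T 2).natAbs ≤ Real.log Y)
    (h2 : ∃ i, rho (T i).natAbs ≤ Real.log B) :
    (T 0, T 1, T 2) ∈ Psi '' (FF Y B ×ˢ (Set.univ : Set ((Fin 3 → Fin 3) × (Fin 3 → Bool)))) := by
  have hc01 : Nat.Coprime (T 0).natAbs (T 1).natAbs := hc
  have p0 := Int.natAbs_pos.2 (h0 0)
  have p1 := Int.natAbs_pos.2 (h0 1)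
  have p2 := Int.natAbs_pos.2 (h0 2)
  have hc02 : Nat.Coprime (T 0).natAbs (T 2).natAbs := by
    rw [← hsum]
    change Int.gcd (T 0) (T 0 + T 1) = 1
    rw [← hc]
    simp
  have hc12 : Nat.Coprime (T 1).natAbs (T 2).natAbs := by
    rw [← hsum]
    change Int.gcd (T 1) (T 0 + T 1) = 1
    rw [Int.gcd_comm] at hc
    rw [← hc]
    simp
  have hex : ∃ s : Fin 3 → Fin 3, ∃ u : Fin 3 → ℕ, Tr u ∧ (∀ i, (T i).natAbs = u (s i)) ∧
      (∀ j, ∃ i, s i = j) ∧ rho (u 0) + rho (u 1) + rho (u 2) =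
        rho (T 0).natAbs + rho (T 1).natAbs + rho (T 2).natAbs := by
    have hcase : (T 2).natAbs = (T 0).natAbs + (T 1).natAbs ∨
        (T 0).natAbs = (T 1).natAbs + (T 2).natAbs ∨ (T 1).natAbs = (T 0).natAbs + (T 2).natAbs := by
      omega
    rcases hcase with h | h | h
    · rcases le_total (T 0).natAbs (T 1).natAbs with h5 | h5
      · refine ⟨![0, 1, 2], ![(T 0).natAbs, (T 1).natAbs, (T 2).natAbs],
          ⟨p0, h5, hc01, h.symm⟩, ?_, ?_, ?_⟩
        · intro i; fin_cases i <;> rfl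
        · decide
        · rfl
      · refine ⟨![1, 0, 2], ![(T 1).natAbs, (T 0).natAbs, (T 2).natAbs],
          ⟨p1, h5, hc01.symm, by simp [h, add_comm]⟩, ?_, ?_, ?_⟩
        · intro i; fin_cases i <;> rfl
        · decide
        · simp only [Matrix.cons_val_zero, Matrix.cons_val_one, Matrix.cons_val]
          ring
    · rcases le_total (T 1).natAbs (T 2).natAbs with h5 | h5
      · refine ⟨![2, 0, 1], ![(T 1).natAbs, (T 2).natAbs, (T 0).natAbs],
          ⟨p1, h5, hc12, h.symm⟩, ?_, ?_, ?_⟩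
        · intro i; fin_cases i <;> rfl
        · decide
        · simp only [Matrix.cons_val_zero, Matrix.cons_val_one, Matrix.cons_val]
          ring
      · refine ⟨![2, 1, 0], ![(T 2).natAbs, (T 1).natAbs, (T 0).natAbs],
          ⟨p2, h5, hc12.symm, by simp [h, add_comm]⟩, ?_, ?_, ?_⟩
        · intro i; fin_cases i <;> rfl
        · decide
        · simp only [Matrix.cons_val_zero, Matrix.cons_val_one, Matrix.cons_val]
          ring
    · rcases le_total (T 0).natAbs (T 2).natAbs with h5 | h5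
      · refine ⟨![0, 2, 1], ![(T 0).natAbs, (T 2).natAbs, (T 1).natAbs],
          ⟨p0, h5, hc02, h.symm⟩, ?_, ?_, ?_⟩
        · intro i; fin_cases i <;> rfl
        · decide
        · simp only [Matrix.cons_val_zero, Matrix.cons_val_one, Matrix.cons_val]
          ring
      · refine ⟨![1, 2, 0], ![(T 2).natAbs, (T 0).natAbs, (T 1).natAbs],
          ⟨p2, h5, hc02.symm, by simp [h, add_comm]⟩, ?_, ?_, ?_⟩
        · intro i; fin_cases i <;> rfl
        · decide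
        · simp only [Matrix.cons_val_zero, Matrix.cons_val_one, Matrix.cons_val]
          ring
  obtain ⟨s, u, hTr, hs, -, hr⟩ := hex
  refine mem_Psi (F := FF Y B) (u := u) ?_ s hs
  refine ⟨hTr, ?_, ?_⟩
  · rw [rr_rho, rr_rho, rr_rho, hr]
    exact h1
  · obtain ⟨i, hi⟩ := h2
    refine ⟨s i, ?_⟩
    rw [rr_rho, ← hs i]
    exact hi

/-- the facts about an `S`-solution -/
lemma facts {S : Finset ℕ} {a b c x y z : ℤ} {p q r : ℕ} (h : IsSol S a b c x y z p q r) :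
    (∀ i, (![a * x ^ p, b * y ^ q, c * z ^ r] : Fin 3 → ℤ) i ≠ 0) ∧
    Int.gcd (a * x ^ p) (b * y ^ q) = 1 ∧
    (Nat.Coprime x.natAbs y.natAbs ∧ Nat.Coprime (x * y).natAbs z.natAbs) ∧
    rho (a * x ^ p).natAbs + rho (b * y ^ q).natAbs + rho (c * z ^ r).natAbs ≤
      cS S + rho (x * y * z).natAbs ∧
    rho (a * x ^ p).natAbs ≤ cS S + rho x.natAbs ∧ rho (b * y ^ q).natAbs ≤ cS S + rho y.natAbs ∧
    rho (c * z ^ r).natAbs ≤ cS S + rho z.natAbs := by
  obtain ⟨hp, hq, hr, -, ⟨ha, hb, hc⟩, ⟨hx, hy, hz⟩, hS, hg, he⟩ := h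
  have n0 : a * x ^ p ≠ 0 := mul_ne_zero ha (pow_ne_zero _ hx)
  have n1 : b * y ^ q ≠ 0 := mul_ne_zero hb (pow_ne_zero _ hy)
  have n2 : c * z ^ r ≠ 0 := mul_ne_zero hc (pow_ne_zero _ hz)
  have hdiv : ∀ {l : ℕ} {a x : ℤ} {p : ℕ}, l.Prime → (l : ℤ) ∣ a * x ^ p → (l : ℤ) ∣ a * x := by
    intro l a x p hl h
    have hl' : Prime (l : ℤ) := Nat.prime_iff_prime_int.1 hl
    rcases hl'.dvd_or_dvd h with h1 | h1
    · exact h1.mul_right x
    · exact (hl'.dvd_of_dvd_pow h1).mul_left a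
  have hg1 : Int.gcd (a * x ^ p) (b * y ^ q) = 1 := by
    by_contra hne
    obtain ⟨l, hl, hd⟩ := Nat.exists_prime_and_dvd hne
    have h1 : (l : ℤ) ∣ a * x ^ p := (Int.natCast_dvd_natCast.2 hd).trans (Int.gcd_dvd_left _ _)
    have h2 : (l : ℤ) ∣ b * y ^ q := (Int.natCast_dvd_natCast.2 hd).trans (Int.gcd_dvd_right _ _)
    have h3 : (l : ℤ) ∣ c * z ^ r := by
      rw [← he]
      exact dvd_add h1 h2
    have h4 : l ∣ Int.gcd ((Int.gcd (a * x) (b * y) : ℕ) : ℤ) (c * z) :=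
      Int.dvd_gcd (Int.natCast_dvd_natCast.2 (Int.dvd_gcd (hdiv hl h1) (hdiv hl h2))) (hdiv hl h3)
    rw [hg] at h4
    exact hl.one_lt.ne' (Nat.dvd_one.1 h4)
  have cxy : Nat.Coprime x.natAbs y.natAbs := by
    have h1 : x ∣ a * x ^ p := (dvd_pow_self x hp.ne').mul_left a
    have h2 : y ∣ b * y ^ q := (dvd_pow_self y hq.ne').mul_left b
    exact Nat.Coprime.coprime_dvd_left (Int.natAbs_dvd_natAbs.2 h1)
      (Nat.Coprime.coprime_dvd_right (Int.natAbs_dvd_natAbs.2 h2) hg1)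
  have hg2 : Int.gcd (a * x ^ p) (c * z ^ r) = 1 := by
    rw [← he, ← hg1]
    simp
  have hg3 : Int.gcd (b * y ^ q) (c * z ^ r) = 1 := by
    rw [Int.gcd_comm] at hg1
    rw [← he, ← hg1]
    simp
  have hzd : z ∣ c * z ^ r := (dvd_pow_self z hr.ne').mul_left c
  have cxz : Nat.Coprime x.natAbs z.natAbs := by
    have h1 : x ∣ a * x ^ p := (dvd_pow_self x hp.ne').mul_left a
    exact Nat.Coprime.coprime_dvd_left (Int.natAbs_dvd_natAbs.2 h1)
      (Nat.Coprime.coprime_dvd_right (Int.natAbs_dvd_natAbs.2 hzd) hg2)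
  have cyz : Nat.Coprime y.natAbs z.natAbs := by
    have h2 : y ∣ b * y ^ q := (dvd_pow_self y hq.ne').mul_left b
    exact Nat.Coprime.coprime_dvd_left (Int.natAbs_dvd_natAbs.2 h2)
      (Nat.Coprime.coprime_dvd_right (Int.natAbs_dvd_natAbs.2 hzd) hg3)
  have m0 := (Int.natAbs_pos.2 n0).ne'
  have m1 := (Int.natAbs_pos.2 n1).ne'
  have m2 := (Int.natAbs_pos.2 n2).ne'
  have one : ∀ {a' x' : ℤ} {p' : ℕ}, a' ∣ a * b * c → x' ≠ 0 →
      rho (a' * x' ^ p').natAbs ≤ cS S + rho x'.natAbs := by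
    intro a' x' p' h1 h2
    refine rho_le (fun l hl hd => ?_) (Int.natAbs_pos.2 h2).ne'
    have h3 : (l : ℤ) ∣ a' * x' ^ p' := Int.natCast_dvd.2 hd
    have hl' : Prime (l : ℤ) := Nat.prime_iff_prime_int.1 hl
    rcases hl'.dvd_or_dvd h3 with h4 | h4
    · exact Or.inl (hS l hl (h4.trans h1))
    · exact Or.inr (Int.natCast_dvd.1 (hl'.dvd_of_dvd_pow h4))
  refine ⟨?_, hg1, ⟨cxy, ?_⟩, ?_, one ⟨b * c, by ring⟩ hx, one ⟨a * c, by ring⟩ hy,
    one ⟨a * b, by ring⟩ hz⟩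
  · intro i
    fin_cases i
    · exact n0
    · exact n1
    · exact n2
  · rw [Int.natAbs_mul]
    exact Nat.Coprime.mul_left cxz cyz
  · have c01 : Nat.Coprime (a * x ^ p).natAbs (b * y ^ q).natAbs := hg1
    have c2 : Nat.Coprime ((a * x ^ p).natAbs * (b * y ^ q).natAbs) (c * z ^ r).natAbs :=
      Nat.Coprime.mul_left hg2 hg3
    rw [← rho_mul c01 m0 m1, ← rho_mul c2 (mul_ne_zero m0 m1) m2, ← Int.natAbs_mul, ← Int.natAbs_mul]
    refine rho_le (fun l hl hd => ?_) (Int.natAbs_pos.2 (mul_ne_zero (mul_ne_zero hx hy) hz)).ne'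
    have h3 : (l : ℤ) ∣ a * x ^ p * (b * y ^ q) * (c * z ^ r) := Int.natCast_dvd.2 hd
    have hl' : Prime (l : ℤ) := Nat.prime_iff_prime_int.1 hl
    have sub : ∀ {a' x' : ℤ} {p' : ℕ}, a' ∣ a * b * c → x' ∣ x * y * z → (l : ℤ) ∣ a' * x' ^ p' →
        l ∈ S ∨ l ∣ (x * y * z).natAbs := by
      intro a' x' p' h1 h2 h4
      rcases hl'.dvd_or_dvd h4 with h5 | h5
      · exact Or.inl (hS l hl (h5.trans h1))
      · exact Or.inr (Int.natCast_dvd.1 ((hl'.dvd_of_dvd_pow h5).trans h2))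
    rcases hl'.dvd_or_dvd h3 with h4 | h4
    · rcases hl'.dvd_or_dvd h4 with h5 | h5
      · exact sub ⟨b * c, by ring⟩ ⟨y * z, by ring⟩ h5
      · exact sub ⟨a * c, by ring⟩ ⟨x * z, by ring⟩ h5
    · exact sub ⟨a * b, by ring⟩ ⟨x * y, by ring⟩ h4

lemma termsA_sub (S : Finset ℕ) {X A : ℝ} (hX : 1 ≤ X) (hA : 1 ≤ A) :
    termsA S X A ⊆ Psi '' (FF (Real.exp (cS S) * X) (Real.exp (cS S) * A) ×ˢ
      (Set.univ : Set ((Fin 3 → Fin 3) × (Fin 3 → Bool)))) := by
  rintro t ⟨a, b, c, x, y, z, p, q, r, hsol, hrad, hsmall, rfl⟩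
  obtain ⟨f0, f1, -, f2, f3, f4, f5⟩ := facts hsol
  have he := hsol.2.2.2.2.2.2.2.2
  have hlog : ∀ {n : ℕ} {B : ℝ}, (radical n : ℝ) ≤ B → rho n ≤ Real.log B := by
    intro n B h
    rw [rho_eq]
    exact Real.log_le_log (by exact_mod_cast radical_pos n) h
  have hlY : ∀ {B : ℝ}, 1 ≤ B → Real.log (Real.exp (cS S) * B) = cS S + Real.log B := by
    intro B hB
    rw [Real.log_mul (Real.exp_ne_zero _) (by linarith), Real.log_exp]
  refine to_abc (T := ![a * x ^ p, b * y ^ q, c * z ^ r]) f0 he f1 ?_ ?_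
  · rw [hlY hX]
    have := hlog hrad
    simp only [Matrix.cons_val_zero, Matrix.cons_val_one, Matrix.cons_val]
    linarith
  · rw [hlY hA]
    rcases hsmall with h | h | h
    · exact ⟨0, f3.trans (by have := hlog h; linarith)⟩
    · exact ⟨1, f4.trans (by have := hlog h; linarith)⟩
    · exact ⟨2, f5.trans (by have := hlog h; linarith)⟩

lemma terms_sub (S : Finset ℕ) {X : ℝ} (hX : 1 ≤ X) :
    terms S X ⊆ termsA S X (X ^ (1 / 3 : ℝ)) := by
  rintro t ⟨a, b, c, x, y, z, p, q, r, hsol, hrad, rfl⟩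
  refine ⟨a, b, c, x, y, z, p, q, r, hsol, hrad, ?_, rfl⟩
  obtain ⟨-, -, ⟨c1, c2⟩, -⟩ := facts hsol
  obtain ⟨-, -, -, -, -, ⟨hx, hy, hz⟩, -⟩ := hsol
  have h1 : rho (x * y * z).natAbs = rho x.natAbs + rho y.natAbs + rho z.natAbs := by
    rw [Int.natAbs_mul, rho_mul c2 (Int.natAbs_pos.2 (mul_ne_zero hx hy)).ne'
      (Int.natAbs_pos.2 hz).ne', Int.natAbs_mul, rho_mul c1 (Int.natAbs_pos.2 hx).ne'
      (Int.natAbs_pos.2 hy).ne']
  have h2 : rho (x * y * z).natAbs ≤ Real.log X := by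
    rw [rho_eq]
    exact Real.log_le_log (by exact_mod_cast radical_pos _) hrad
  have h3 : ∀ n : ℕ, Real.log X / 3 < rho n ∨ (radical n : ℝ) ≤ X ^ (1 / 3 : ℝ) := by
    intro n
    by_cases h : Real.log X / 3 < rho n
    · exact Or.inl h
    · right
      push Not at h
      have hn : (0 : ℝ) < radical n := by exact_mod_cast radical_pos n
      rw [rho_eq] at h
      rw [← Real.log_le_log_iff hn (by positivity), Real.log_rpow (by linarith)]
      linarith
  rcases h3 x.natAbs with h | h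
  · rcases h3 y.natAbs with h' | h'
    · rcases h3 z.natAbs with h'' | h''
      · linarith
      · exact Or.inr (Or.inr h'')
    · exact Or.inr (Or.inl h')
  · exact Or.inl h

lemma card_cod : (Set.univ : Set ((Fin 3 → Fin 3) × (Fin 3 → Bool))).ncard = 216 := by
  rw [Set.ncard_univ, Nat.card_eq_fintype_card, Fintype.card_prod, Fintype.card_fun, Fintype.card_fun,
    Fintype.card_fin, Fintype.card_bool]
  norm_num

/-- **`S`-solutions of all heights.** For every finite set `S` of primes and every `ε > 0` there is `C`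
such that for all `X, A ≥ 1`: the triples of terms of the `S`-solutions with `rad (x y z) ≤ X` and a
base of radical at most `A` are finite in number, at most `C X ^ ε √(A X)`; and the triples of terms
of all `S`-solutions with `rad (x y z) ≤ X` are at most `C X ^ (2/3 + ε)`. -/
theorem result (S : Finset ℕ) (ε : ℝ) (hε : 0 < ε) : ∃ C : ℝ, 0 < C ∧ ∀ X : ℝ, 1 ≤ X →
    (∀ A : ℝ, 1 ≤ A → (termsA S X A).Finite ∧
      ((termsA S X A).ncard : ℝ) ≤ C * X ^ ε * Real.sqrt (A * X)) ∧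
    (terms S X).Finite ∧ ((terms S X).ncard : ℝ) ≤ C * X ^ (2 / 3 + ε) := by
  obtain ⟨D, hD, h⟩ := FF_fin ε hε
  obtain ⟨C, hC⟩ : ∃ C, C = 216 * D * Real.exp (cS S) ^ ε * Real.exp (cS S) := ⟨_, rfl⟩
  have hC0 : 0 < C := by rw [hC]; positivity
  have part : ∀ X : ℝ, 1 ≤ X → ∀ A : ℝ, 1 ≤ A → (termsA S X A).Finite ∧
      ((termsA S X A).ncard : ℝ) ≤ C * X ^ ε * Real.sqrt (A * X) := by
    intro X hX A hA
    have hE : 1 ≤ Real.exp (cS S) := Real.one_le_exp (cS_nonneg S)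
    obtain ⟨hfin, hcard⟩ := h (Real.exp (cS S) * X) (Real.exp (cS S) * A)
      (by nlinarith) (by nlinarith)
    have hsub := termsA_sub S hX hA
    have hf2 : (FF (Real.exp (cS S) * X) (Real.exp (cS S) * A) ×ˢ
      (Set.univ : Set ((Fin 3 → Fin 3) × (Fin 3 → Bool)))).Finite :=
      hfin.prod (Set.finite_univ)
    have hfin2 := hf2.image Psi
    refine ⟨hfin2.subset hsub, ?_⟩
    have h1 := (Set.ncard_le_ncard hsub hfin2).trans (Set.ncard_image_le hf2)
    rw [Set.ncard_prod, card_cod] at h1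
    have h2 : ((termsA S X A).ncard : ℝ) ≤
        ((FF (Real.exp (cS S) * X) (Real.exp (cS S) * A)).ncard : ℝ) * 216 := by exact_mod_cast h1
    refine h2.trans ((mul_le_mul_of_nonneg_right hcard (by norm_num)).trans (le_of_eq ?_))
    have hX0 : 0 < X := by linarith
    have hA0 : 0 < A := by linarith
    have hE0 := Real.exp_pos (cS S)
    rw [← Real.sqrt_eq_rpow, Real.mul_rpow hE0.le hX0.le,
      show Real.exp (cS S) * A * (Real.exp (cS S) * X) = Real.exp (cS S) ^ 2 * (A * X) by ring,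
      Real.sqrt_mul (by positivity), Real.sqrt_sq hE0.le, hC]
    ring
  refine ⟨C, hC0, fun X hX => ⟨part X hX, ?_⟩⟩
  have hX0 : 0 < X := by linarith
  have hA : 1 ≤ X ^ (1 / 3 : ℝ) := Real.one_le_rpow hX (by norm_num)
  obtain ⟨h1, h2⟩ := part X hX _ hA
  have hsub := terms_sub S hX
  refine ⟨h1.subset hsub, ?_⟩
  have h3 : ((terms S X).ncard : ℝ) ≤ ((termsA S X (X ^ (1 / 3 : ℝ))).ncard : ℝ) := by
    exact_mod_cast Set.ncard_le_ncard hsub h1
  refine h3.trans (h2.trans (le_of_eq ?_))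
  have h4 : X ^ (1 / 3 : ℝ) * X = X ^ (4 / 3 : ℝ) := by
    nth_rewrite 2 [← Real.rpow_one X]
    rw [← Real.rpow_add hX0]
    norm_num
  rw [h4, Real.sqrt_eq_rpow, ← Real.rpow_mul hX0.le, mul_assoc, ← Real.rpow_add hX0]
  congr 2
  ring

end Pool.Agent.Results.MP_be1fae_nt.RadicalAllHeights
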