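import Mathlib
import Pool.Agent.TH888.G.Alpha4

/-!
Generalised Fermat equations with `S`-unit coefficients for almost all pairs of bases: a third exponent
that is not bounded.

Let `S` be a finite set of primes and `c < 1 / (2 |S| + 2)`. For almost all pairs `(u, v)` every
`S`-solution of `a x ^ p + b y ^ q = c z ^ r` with two of its bases equal to `±u`, `±v` and with third
exponent at least `2` has a third exponent all of whose prime factors exceed `N ^ c`, a third base and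
a coefficient larger than `exp (N ^ c')`, and its coefficients are not `± 1` at the third base and at
one of `u`, `v`; here `N` is the side of the box and `c' > 0` depends on `S` and `c`. In particular
there are no solutions at all with third exponent at least `2` if the coefficients are at most
`exp (N ^ c')`, for example fixed, and none of `± u ^ p + b v ^ q = ± z ^ r`, `r ≥ 2`, with an `S`-unit
`b`; all exponents and `z` (and `b`) are free.
-/

set_option autoImplicit false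

namespace Pool.Agent.Results.MP_be1fae_nt.UnboundedExponent

/-- `S`-solutions of `a x ^ p + b y ^ q = c z ^ r` (the condition `1/p + 1/q + 1/r < 1` is not
imposed) -/
def SSolution (S : Finset ℕ) (a b c x y z : ℤ) (p q r : ℕ) : Prop :=
  0 < p ∧ 0 < q ∧ 0 < r ∧ a ≠ 0 ∧ b ≠ 0 ∧ c ≠ 0 ∧ x ≠ 0 ∧ y ≠ 0 ∧ z ≠ 0 ∧
    (∀ ℓ : ℕ, ℓ.Prime → (ℓ : ℤ) ∣ a * b * c → ℓ ∈ S) ∧
    Int.gcd ((Int.gcd (a * x) (b * y) : ℕ) : ℤ) (c * z) = 1 ∧
    a * x ^ p + b * y ^ q = c * z ^ r

/-- `m` is a multiple of some `n` with `2 ≤ n ≤ W` (for example `2 ≤ m ≤ W`, or `m` even if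
`W ≥ 2`) -/
def Mult (W : ℝ) (m : ℕ) : Prop := ∃ n : ℕ, 2 ≤ n ∧ (n : ℝ) ≤ W ∧ n ∣ m

/-- the condition on the third base `z` and its exponent `r`, where `a` and `b` are the coefficients
of the two given bases and `c` is the coefficient of the third one: `r` is a multiple of some `n` with
`2 ≤ n ≤ W`, or `r ≥ 2` and either `|z| ≤ V`, or `|a|, |b|, |c| ≤ V`, or `c` and one of `a`, `b` are
`± 1` -/
def Third (W V : ℝ) (a b c z : ℤ) (r : ℕ) : Prop :=
  Mult W r ∨ (2 ≤ r ∧ (|(z : ℝ)| ≤ V ∨ (|(a : ℝ)| ≤ V ∧ |(b : ℝ)| ≤ V ∧ |(c : ℝ)| ≤ V) ∨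
    (c.natAbs = 1 ∧ (a.natAbs = 1 ∨ b.natAbs = 1))))

/-- the pairs `(u, v)` such that `±u`, `±v` are two bases of an `S`-solution whose third base and its
exponent satisfy the condition `Third` -/
def Exceptional (S : Finset ℕ) (W V : ℝ) : Set (ℕ × ℕ) :=
  {w | ∃ (a b c x y z : ℤ) (p q r : ℕ), SSolution S a b c x y z p q r ∧
    ((x.natAbs = w.1 ∧ y.natAbs = w.2 ∧ Third W V a b c z r) ∨
     (x.natAbs = w.1 ∧ z.natAbs = w.2 ∧ Third W V a c b y q) ∨
     (y.natAbs = w.1 ∧ z.natAbs = w.2 ∧ Third W V b c a x p))}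

/-- For every finite set `S` of primes and all `0 < c < 1 / (2 |S| + 2)` there is `c' > 0` such that
for all `K` and every `ε > 0` there is `L` such that in every box `(a, a + X] × (b, b + Y]` with
`X, Y ≥ L` and `a, b ≤ N ^ K`, `N = max(X, Y)`, at most `ε X Y` pairs are exceptional for
`W = N ^ c`, `V = exp (N ^ c')`. -/
theorem result (S : Finset ℕ) (c : ℝ) (hc : 0 < c) (hc1 : c < 1 / (2 * S.card + 2)) :
    ∃ c' : ℝ, 0 < c' ∧ ∀ (K : ℕ) (ε : ℝ), 0 < ε → ∃ L : ℕ, ∀ X Y : ℕ, L ≤ X → L ≤ Y → ∀ a b : ℕ,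
      a ≤ (max X Y) ^ K → b ≤ (max X Y) ^ K →
      ((Exceptional S (((max X Y : ℕ) : ℝ) ^ c) (Real.exp (((max X Y : ℕ) : ℝ) ^ c')) ∩
        (Set.Ioc a (a + X) ×ˢ Set.Ioc b (b + Y))).ncard : ℝ) ≤ ε * (X * Y) := by
  have h1 : c * (2 * S.card + 2) < 1 := by
    rwa [lt_div_iff₀ (by positivity)] at hc1
  exact Pool.Agent.TH888.G.alpha4 S hc h1

end Pool.Agent.Results.MP_be1fae_nt.UnboundedExponent
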