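import Mathlib
import Pool.Agent.TH888.G.Gamma4

/-!
Generalised Fermat equations with `S`-unit coefficients, one of whose bases is a fixed integer, or any
integer composed of the primes of `S`.

Let `S` be a finite set of primes, `c < 1 / (2 |S| + 2)` and `δ > 0`. In every interval `(b, b + Y]`
with `Y` large and `b ≤ Y ^ (2 - δ)`, all but `ε Y` integers `B` have the following property: every
`S`-solution of `a x ^ p + b y ^ q = c z ^ r` with `x` composed of primes of `S`, `y = ± B` and `r ≥ 2`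
has an exponent `r` all of whose prime factors exceed `Y ^ c`, a base `z` with `|z| > exp (Y ^ c')`,
and `|a x ^ p|` or `|c|` larger than `exp (Y ^ c')`, where `c' > 0` depends on `S` and `c`. In
particular, for all `k, c ≠ 0` and all but `ε Y` of the `B` the equation `c z ^ r - b B ^ q = k` has no
solution with `r ≥ 2`, `b` composed of primes of `S` and `c z` prime to `k`. The exponents `q`, `r`,
the base `z` and the coefficient `b` are arbitrary.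
-/

set_option autoImplicit false

namespace Pool.Agent.Results.MP_be1fae_nt.UnitBase

/-- `S`-solutions of `a x ^ p + b y ^ q = c z ^ r` (the condition `1/p + 1/q + 1/r < 1` is not
imposed) -/
def SSolution (S : Finset ℕ) (a b c x y z : ℤ) (p q r : ℕ) : Prop :=
  0 < p ∧ 0 < q ∧ 0 < r ∧ a ≠ 0 ∧ b ≠ 0 ∧ c ≠ 0 ∧ x ≠ 0 ∧ y ≠ 0 ∧ z ≠ 0 ∧
    (∀ ℓ : ℕ, ℓ.Prime → (ℓ : ℤ) ∣ a * b * c → ℓ ∈ S) ∧
    Int.gcd ((Int.gcd (a * x) (b * y) : ℕ) : ℤ) (c * z) = 1 ∧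
    a * x ^ p + b * y ^ q = c * z ^ r

/-- `m` is a multiple of some `n` with `2 ≤ n ≤ W` (for example `2 ≤ m ≤ W`, or `m` even if
`W ≥ 2`) -/
def Mult (W : ℝ) (m : ℕ) : Prop := ∃ n : ℕ, 2 ≤ n ∧ (n : ℝ) ≤ W ∧ n ∣ m

/-- the condition on the third base `z`, its coefficient `c`, its exponent `r`, and on the `S`-unit
`u = a x ^ p`: `r` is a multiple of some `n` with `2 ≤ n ≤ W`, or `r ≥ 2` and `|z| ≤ V`, or `r ≥ 2`,
`|u| ≤ V` and `|c| ≤ V` -/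
def Third (W V : ℝ) (u c z : ℤ) (r : ℕ) : Prop :=
  Mult W r ∨ (2 ≤ r ∧ (|(z : ℝ)| ≤ V ∨ (|(u : ℝ)| ≤ V ∧ |(c : ℝ)| ≤ V)))

/-- the integers `B` such that `± B` is a base of an `S`-solution, another base of which is composed
of primes of `S`, and the third base and its exponent satisfy the condition `Third` -/
def Exceptional (S : Finset ℕ) (W V : ℝ) : Set ℕ :=
  {B | ∃ (a b c x y z : ℤ) (p q r : ℕ), SSolution S a b c x y z p q r ∧
    (∀ ℓ : ℕ, ℓ.Prime → (ℓ : ℤ) ∣ x → ℓ ∈ S) ∧ y.natAbs = B ∧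
    Third W V (a * x ^ p) c z r}

/-- For every finite set `S` of primes and all `0 < c < 1 / (2 |S| + 2)` there is `c' > 0` such that
for all `ε > 0` and `0 < δ ≤ 1` there is `L` such that in every interval `(b, b + Y]` with `Y ≥ L`
and `b ≤ Y ^ (2 - δ)` at most `ε Y` integers are exceptional for `W = Y ^ c`,
`V = exp (Y ^ c')`. -/
theorem result (S : Finset ℕ) (c : ℝ) (hc : 0 < c) (hc1 : c < 1 / (2 * S.card + 2)) :
    ∃ c' : ℝ, 0 < c' ∧ ∀ ε δ : ℝ, 0 < ε → 0 < δ → δ ≤ 1 → ∃ L : ℕ, ∀ Y : ℕ, L ≤ Y → ∀ b : ℕ,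
    (b : ℝ) ≤ (Y : ℝ) ^ (2 - δ) →
      ((Exceptional S ((Y : ℝ) ^ c) (Real.exp ((Y : ℝ) ^ c')) ∩ Set.Ioc b (b + Y)).ncard : ℝ) ≤
        ε * Y := by
  have h1 : c * (2 * S.card + 2) < 1 := by
    rwa [lt_div_iff₀ (by positivity)] at hc1
  obtain ⟨c', hc', hmain⟩ := Pool.Agent.TH888.G.gamma4 S hc h1
  refine ⟨c', hc', fun ε δ hε hδ hδ1 => ?_⟩
  obtain ⟨L, hL⟩ := hmain ε δ hε hδ hδ1
  refine ⟨L, fun Y hY b₀ hb => le_trans ?_ (hL Y hY b₀ hb)⟩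
  refine Nat.cast_le.mpr (Set.ncard_le_ncard ?_
    ((Set.finite_Ioc b₀ (b₀ + Y)).subset fun B hB => hB.1))
  rintro B ⟨⟨a, b, c₁, x, y, z, p, q, r, hsol, hx, hyB, hcase⟩, hB⟩
  obtain ⟨hp, hq, hr, ha, hb0, hc0, hx0, hy0, hz0, hS, hgcd, heq⟩ := hsol
  have hg := (Pool.Agent.TH888.G.gcd3_iff _ _ _).mp hgcd
  obtain ⟨σ, hσ, hy⟩ := Pool.Agent.TH888.G.sgn_natAbs y
  rw [hyB] at hy
  have hsu : ∀ t : ℤ, t ≠ 0 → (∀ ℓ : ℕ, ℓ.Prime → (ℓ : ℤ) ∣ t → ℓ ∈ S) →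
      Pool.Agent.TH888.W2.Su (S.filter Nat.Prime) t.natAbs := by
    intro t ht h
    refine ⟨Int.natAbs_ne_zero.mpr ht, fun ℓ hℓ hd => ?_⟩
    rw [Finset.mem_filter]
    exact ⟨h ℓ hℓ (Int.natCast_dvd.mpr hd), hℓ⟩
  have hσ2 : ∀ ℓ : ℕ, ℓ.Prime → (ℓ : ℤ) ∣ σ ^ q → False := by
    intro ℓ hℓ h
    have h2 := (Nat.prime_iff_prime_int.mp hℓ).dvd_of_dvd_pow h
    have h3 := (Nat.prime_iff_prime_int.mp hℓ).not_isUnit
    apply h3
    rcases hσ with rfl | rfl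
    · exact isUnit_of_dvd_one h2
    · exact isUnit_of_dvd_one ((dvd_neg).mp h2)
  have hσ0 : σ ^ q ≠ 0 := pow_ne_zero _ (by rcases hσ with rfl | rfl <;> norm_num)
  refine ⟨hB, a * x ^ p, b * σ ^ q, c₁, z, q, r, hq, hr, hsu _ ?_ ?_, hsu _ ?_ ?_,
    hsu _ hc0 ?_, hz0, (Pool.Agent.TH888.G.gcd3_iff _ _ _).mpr ?_, ?_, hcase⟩
  · exact mul_ne_zero ha (pow_ne_zero _ hx0)
  · intro ℓ hℓ h
    rcases (Nat.prime_iff_prime_int.mp hℓ).dvd_or_dvd h with h2 | h2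
    · exact hS ℓ hℓ ((h2.mul_right b).mul_right c₁)
    · exact hx ℓ hℓ ((Nat.prime_iff_prime_int.mp hℓ).dvd_of_dvd_pow h2)
  · exact mul_ne_zero hb0 hσ0
  · intro ℓ hℓ h
    rcases (Nat.prime_iff_prime_int.mp hℓ).dvd_or_dvd h with h2 | h2
    · exact hS ℓ hℓ ((h2.mul_left a).mul_right c₁)
    · exact (hσ2 ℓ hℓ h2).elim
  · exact fun ℓ hℓ h => hS ℓ hℓ (h.mul_left (a * b))
  · intro ℓ hℓ h1 h2 h3
    have hi := Nat.prime_iff_prime_int.mp hℓ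
    refine hg ℓ hℓ ?_ ?_ h3
    · rcases hi.dvd_or_dvd h1 with h4 | h4
      · exact h4.mul_right _
      · exact (hi.dvd_of_dvd_pow h4).mul_left _
    · rcases hi.dvd_or_dvd h2 with h4 | h4
      · rcases hi.dvd_or_dvd h4 with h5 | h5
        · exact h5.mul_right _
        · exact (hσ2 ℓ hℓ h5).elim
      · rw [hy]
        exact (h4.mul_left σ).mul_left b
  · rw [← heq, hy, mul_pow]; ring

end Pool.Agent.Results.MP_be1fae_nt.UnitBase
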